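import Pool.Agent.TH116.GD.Basic

/-!
# The KZ associator: asymptotic dimensions are enough
-/

open Module

namespace Pool.Agent.Results.MP_807c24_nt.AsymptoticDimension

open Pool.Agent.TH116.GD

variable {A B : Type*} [CommRing A] [Algebra ℚ A] [CommRing B] [Algebra ℚ B]

/-- An increasing filtration of a domain by finite-dimensional subspaces, compatible with products,
which exhausts the domain, contains `1`, and grows at most exponentially. -/
structure IsFiltered (F : ℕ → Submodule ℚ A) : Prop where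
  model : IsModel F
  one_mem : (1 : A) ∈ F 0
  mono : Monotone F
  exhaust : ∀ x : A, ∃ n, x ∈ F n
  growth : ∃ C : ℕ, ∀ n, finrank ℚ (F n) ≤ C ^ (n + 1)

lemma IsFiltered.one_le {F : ℕ → Submodule ℚ A} (h : IsFiltered F) (n : ℕ) :
    1 ≤ finrank ℚ (F n) := by
  have := h.model.domain
  have := h.model.finite n
  rw [Nat.one_le_iff_ne_zero]
  intro h0
  have h1 : F n = ⊥ := Submodule.finrank_eq_zero.1 h0
  have h2 : (1 : A) ∈ F n := h.mono (Nat.zero_le n) h.one_mem
  rw [h1, Submodule.mem_bot] at h2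
  exact one_ne_zero h2

/-- For each `w`, `dim F n ≤ K dim F (n - w)` for a constant `K` and arbitrarily large `n`. -/
lemma IsFiltered.ratio {F : ℕ → Submodule ℚ A} (h : IsFiltered F) (w : ℕ) :
    ∃ K : ℕ, ∀ N : ℕ, ∃ n : ℕ, N ≤ n ∧ w ≤ n ∧ finrank ℚ (F n) ≤ K * finrank ℚ (F (n - w)) := by
  obtain ⟨C, hC⟩ := h.growth
  have := h.model.domain
  have := h.model.finite
  rcases Nat.eq_zero_or_pos w with rfl | hw
  · exact ⟨1, fun N => ⟨N, le_rfl, Nat.zero_le _, by simp⟩⟩
  refine ⟨C ^ w + 1, ?_⟩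
  by_contra hcon
  rw [not_forall] at hcon
  obtain ⟨N, hN⟩ := hcon
  have hN' : ∀ n, N ≤ n → w ≤ n → (C ^ w + 1) * finrank ℚ (F (n - w)) < finrank ℚ (F n) := by
    intro n h1 h2
    by_contra h3
    exact hN ⟨n, h1, h2, not_lt.1 h3⟩
  set m := N + w with hm
  have hpos : 1 ≤ finrank ℚ (F m) := h.one_le m
  have hiter : ∀ j : ℕ, (C ^ w + 1) ^ j ≤ finrank ℚ (F (m + j * w)) := by
    intro j
    induction j with
    | zero => simpa using hpos
    | succ j ih =>
      have h1 := hN' (m + (j + 1) * w) (by nlinarith) (by nlinarith)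
      have e : m + (j + 1) * w - w = m + j * w := by
        have : (j + 1) * w = j * w + w := by ring
        omega
      rw [e] at h1
      calc (C ^ w + 1) ^ (j + 1) = (C ^ w + 1) * (C ^ w + 1) ^ j := by ring
        _ ≤ (C ^ w + 1) * finrank ℚ (F (m + j * w)) := Nat.mul_le_mul_left _ ih
        _ ≤ _ := h1.le
  have hbound : ∀ j : ℕ, (C ^ w + 1) ^ j ≤ C ^ (m + 1) * (C ^ w) ^ j := by
    intro j
    refine (hiter j).trans ((hC _).trans (le_of_eq ?_))
    rw [← pow_mul, ← pow_add]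
    congr 1
    ring
  -- `C ≥ 1` as the spaces are non-zero
  have hC1 : 1 ≤ C := by
    rcases Nat.eq_zero_or_pos C with h0 | h0
    · have h4 := hC m
      rw [h0, zero_pow (Nat.succ_ne_zero m)] at h4
      omega
    · exact h0
  have hCw : (0 : ℝ) < (C : ℝ) ^ w := by positivity
  have h1 : (1 : ℝ) < ((C : ℝ) ^ w + 1) / (C : ℝ) ^ w := by
    rw [lt_div_iff₀ hCw]
    linarith
  obtain ⟨j, hj⟩ := pow_unbounded_of_one_lt ((C : ℝ) ^ (m + 1)) h1
  have h2 : (((C : ℝ) ^ w + 1) ^ j) ≤ (C : ℝ) ^ (m + 1) * ((C : ℝ) ^ w) ^ j := by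
    exact_mod_cast hbound j
  rw [div_pow, lt_div_iff₀ (by positivity)] at hj
  linarith

/-- The following are equivalent: (1) the homomorphism `φ` is injective; (2) for each `ε > 0`,
`dim φ (F n) ≥ (1 - ε) dim F n` for all large `n`; (3) for each `w` there is `n ≥ w` with
`dim φ (F n) > dim F n - dim F (n - w)`. -/
theorem result {F : ℕ → Submodule ℚ A} (h : IsFiltered F) (φ : A →ₐ[ℚ] B) :
    List.TFAE [
      Function.Injective φ,
      ∀ ε : ℝ, 0 < ε → ∃ N : ℕ, ∀ n : ℕ, N ≤ n →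
        (1 - ε) * finrank ℚ (F n) ≤ (finrank ℚ ((F n).map φ.toLinearMap) : ℝ),
      ∀ w : ℕ, ∃ n : ℕ, w ≤ n ∧
        finrank ℚ (F n) < finrank ℚ ((F n).map φ.toLinearMap) + finrank ℚ (F (n - w))] := by
  have hdom := h.model.domain
  have hfin := h.model.finite
  tfae_have 1 → 2 := by
    intro h1 ε hε
    refine ⟨0, fun n _ => ?_⟩
    rw [finrank_map_of_injOn φ (n := n) fun x _ hx => (injective_iff_map_eq_zero φ).1 h1 x hx]
    have : (0 : ℝ) ≤ finrank ℚ (F n) := Nat.cast_nonneg _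
    nlinarith
  tfae_have 2 → 3 := by
    intro h2 w
    obtain ⟨K, hK⟩ := h.ratio w
    obtain ⟨N, hN⟩ := h2 (1 / (2 * ((K : ℝ) + 1))) (by positivity)
    obtain ⟨n, hn, hwn, hle⟩ := hK N
    refine ⟨n, hwn, ?_⟩
    have h3 := hN n hn
    have hle' : (finrank ℚ (F n) : ℝ) ≤ K * finrank ℚ (F (n - w)) := by exact_mod_cast hle
    have h5 : (1 : ℝ) ≤ finrank ℚ (F (n - w)) := by exact_mod_cast h.one_le (n - w)
    have h6 : 1 / (2 * ((K : ℝ) + 1)) * (finrank ℚ (F n) : ℝ) ≤ finrank ℚ (F (n - w)) / 2 := by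
      rw [div_mul_eq_mul_div, one_mul, div_le_div_iff₀ (by positivity) (by norm_num)]
      nlinarith
    have h7 : (finrank ℚ (F n) : ℝ) < finrank ℚ ((F n).map φ.toLinearMap) +
        finrank ℚ (F (n - w)) := by linarith
    exact_mod_cast h7
  tfae_have 3 → 1 := by
    intro h3
    rw [injective_iff_map_eq_zero]
    intro r hφ
    by_contra hr0
    obtain ⟨w, hr⟩ := h.exhaust r
    obtain ⟨n, hn, hlt⟩ := h3 w
    have h5 := gap h.model φ hr hr0 hφ hn
    omega
  tfae_finish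

end Pool.Agent.Results.MP_807c24_nt.AsymptoticDimension
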