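import Pool.Agent.TH818.AP.Mv2
import Pool.Agent.TH818.AP.Hyp

/-!
# Solutions of the KZ equation at almost all rational points
-/

set_option autoImplicit false

namespace Pool.Agent.Results.MP_807c24_nt.KZSolutionsRationalPoints

/-- The functions `G w` (`w` a word in the letters `X_1, …, X_m`, written as a list) are the coefficients of a solution
`G = ∑ G_w w` on the interval `(u, v)`, with constant term `1`, of the equation `G'(z) = (∑ X_i / (z - s_i)) G(z)`. For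
`m = 2`, `s = (0, 1)`, `X_1 = A`, `X_2 = B` it is the KZ equation `G'(z) = (A / z + B / (z - 1)) G(z)`, on any interval
`(u, v)` that contains neither `0` nor `1`. -/
def IsSolution {m : ℕ} (s : Fin m → ℝ) (u v : ℝ) (G : List (Fin m) → ℝ → ℝ) : Prop :=
  (∀ z : ℝ, u < z → z < v → G [] z = 1) ∧
    ∀ (i : Fin m) (w : List (Fin m)) (z : ℝ), u < z → z < v → HasDerivAt (G (i :: w)) (G w z / (z - s i)) z

/-- Words of length at most `k` in `m` letters. -/
abbrev Word (m k : ℕ) := Σ l : Fin (k + 1), (Fin (l : ℕ) → Fin m)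

/-- The value of the coefficient of the word `w`. -/
def coef {m k : ℕ} (G : List (Fin m) → ℝ → ℝ) (w : Word m k) (z : ℝ) : ℝ := G (List.ofFn w.2) z

/-- The `n`-tuples `q` of rational numbers, `q_j` in `[a_j, b_j]`, with denominators at most `T` such that there are
integers `c (w_1, …, w_n) i`, not all zero, of absolute value at most `T ^ A` (`w_j` words of length at most `k`,
`0 ≤ i ≤ d`), with `|∑ c (w_1, …, w_n) i π^i G_(1,w_1)(q_1) ⋯ G_(n,w_n)(q_n)| ≤ T ^ (-B)`. -/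
def Exceptional {m n : ℕ} (k d : ℕ) (G : Fin n → List (Fin m) → ℝ → ℝ) (a b : Fin n → ℝ) (A B T : ℝ) :
    Set (Fin n → ℚ) :=
  {q | (∀ j, a j ≤ q j ∧ q j ≤ b j ∧ ((q j).den : ℝ) ≤ T) ∧
    ∃ c : (Fin n → Word m k) → Fin (d + 1) → ℤ, c ≠ 0 ∧ (∀ w i, |(c w i : ℝ)| ≤ T ^ A) ∧
      |∑ w, ∑ i, (c w i : ℝ) * (Real.pi ^ (i : ℕ) * ∏ j, coef (G j) (w j) (q j))| ≤ T ^ (-B)}

/-- Let `s_1, …, s_m` be distinct real numbers, let `[a_j, b_j] ⊂ (u_j, v_j)` be intervals, `s_i ∉ (u_j, v_j)`, and let `G_j`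
be a solution on `(u_j, v_j)`, `1 ≤ j ≤ n`. Let `k`, `d`, `A ≥ 0` be given, let `M = (1 + m + ⋯ + m^k)^n (d + 1)` and
`β > 2 - 2 / (M + 1)`. There are `B` and `C` such that for all `T ≥ 1` the number of exceptional `n`-tuples is at most
`C T^(2(n - 1) + β)`. -/
theorem result {m n : ℕ} (k d : ℕ) (hn : 1 ≤ n) (s : Fin m → ℝ) (hs : Function.Injective s) (u v a b : Fin n → ℝ)
    (hu : ∀ j, u j < a j) (hab : ∀ j, a j < b j) (hv : ∀ j, b j < v j) (hpole : ∀ j i, s i ≤ u j ∨ v j ≤ s i)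
    (G : Fin n → List (Fin m) → ℝ → ℝ) (hG : ∀ j, IsSolution s (u j) (v j) (G j)) (A β : ℝ) (hA : 0 ≤ A)
    (hβ : 2 - 2 / ((∑ l ∈ Finset.range (k + 1), (m : ℝ) ^ l) ^ n * ((d : ℝ) + 1) + 1) < β) :
    ∃ B C : ℝ, ∀ T : ℝ, 1 ≤ T → (Exceptional k d G a b A B T).Finite ∧
      ((Exceptional k d G a b A B T).ncard : ℝ) ≤ C * T ^ (2 * ((n : ℝ) - 1) + β) := by
  classical
  have hs' : ∀ j i, s i ∉ Set.Ioo (u j) (v j) := by
    rintro j i ⟨h1, h2⟩
    rcases hpole j i with h | h <;> linarith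
  have hG' : ∀ j, TH818.AP.Hyp.IsSol s (u j) (v j) (G j) := fun j =>
    ⟨fun z hz => (hG j).1 z hz.1 hz.2, fun i w z hz => (hG j).2 i w z hz.1 hz.2⟩
  have hcard : Fintype.card (Word m k) = ∑ l ∈ Finset.range (k + 1), m ^ l := TH818.AP.Hyp.card_Word m k
  have hpos : 0 < Fintype.card (Word m k) := by
    rw [hcard, Finset.sum_range_succ']
    simp
  have hβ' : 2 * (((Fintype.card (Word m k)) ^ n * Fintype.card (Fin (d + 1)) : ℕ) : ℝ) /
      ((((Fintype.card (Word m k)) ^ n * Fintype.card (Fin (d + 1)) : ℕ) : ℝ) + 1) < β := by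
    rw [hcard, Fintype.card_fin]
    refine lt_of_le_of_lt (le_of_eq ?_) hβ
    push_cast
    have h0 : (0 : ℝ) ≤ ∑ l ∈ Finset.range (k + 1), (m : ℝ) ^ l := Finset.sum_nonneg fun l _ => by positivity
    have h1 : (∑ l ∈ Finset.range (k + 1), (m : ℝ) ^ l) ^ n * ((d : ℝ) + 1) + 1 ≠ 0 := by positivity
    field_simp
    ring
  obtain ⟨B, C, h⟩ := TH818.AP.multi_gen hpos _ (TH818.AP.goodConst_pi d) n hn
    (fun j (w : Word m k) (t : ℝ) => coef (G j) w t) a b hab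
    (fun j w z hz => (hG' j).an (hs' j) _ z ⟨(hu j).trans_le hz.1, hz.2.trans_lt (hv j)⟩)
    (fun j => TH818.AP.Hyp.hyp_indep s hs (hu j) (hab j) (hv j) (hG' j) (hs' j) k) A β hA hβ'
  refine ⟨B, C, fun T hT => ?_⟩
  obtain ⟨hfin, hle⟩ := h T hT
  have hsub : Exceptional k d G a b A B T ⊆ TH818.AP.ExcM (fun j (w : Word m k) (t : ℝ) => coef (G j) w t)
      (fun e : Fin (d + 1) => Real.pi ^ (e : ℕ)) a b A B T := by
    rintro q ⟨hq, c, hc0, hc, hcs⟩
    refine ⟨fun j => ⟨⟨(hq j).1, (hq j).2.1⟩, (hq j).2.2⟩, fun e => c e.1 e.2, ?_, fun e => hc _ _, ?_⟩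
    · intro h0
      apply hc0
      funext w i
      exact congrFun h0 (w, i)
    · refine le_trans (le_of_eq ?_) hcs
      congr 1
      rw [Fintype.sum_prod_type]
      refine Finset.sum_congr rfl fun w _ => Finset.sum_congr rfl fun i _ => ?_
      simp only [TH818.AP.mono]
      ring
  refine ⟨hfin.subset hsub, le_trans ?_ hle⟩
  exact_mod_cast Set.ncard_le_ncard hsub hfin

end Pool.Agent.Results.MP_807c24_nt.KZSolutionsRationalPoints
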